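import Mathlib
import Pool.Agent.Y202.EA.L2

/-!
# Edge averaging on `ℤ^d` with a stationary, square integrable profile

The model (clocks, rules of the process, stationarity) is defined in `Pool.Agent.H563R3.EADefs`, the
process with an unbounded profile (`GenEdgeAveraging`) and the truncation of a number (`trunc`) in
`Pool.Agent.Y202.EA.Sq`, the field of the invariant events (`invSets`) in `Pool.Agent.Y202.EA.Ident`
and the shift of a configuration (`sft`) in `Pool.Agent.H563R3.EAWalk`.
-/

set_option autoImplicit false
open MeasureTheory ProbabilityTheory Filter Topology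
open Pool.Agent.H563R3.EA Pool.Agent.Y202.EA

namespace Pool.Agent.Results.MP_e8a7ad_pr.SquareIntegrable

variable {d : ℕ} {Ω : Type} {mΩ : MeasurableSpace Ω}

/-- Every translation invariant event has probability `0` or `1`. -/
def ErgodicProfile (P : Measure Ω) (g : Ω → Site d → ℝ) : Prop :=
  ∀ A : Set (Site d → ℝ), MeasurableSet A → (∀ x : Site d, sft x ⁻¹' A = A) →
    P (g ⁻¹' A) = 0 ∨ P (g ⁻¹' A) = 1

/-- The conditional expectation of the opinion at the origin given the events which are invariant
under the translations. -/
noncomputable def invMean (P : Measure Ω) (g : Ω → Site d → ℝ) : Ω → ℝ :=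
  P[fun ω => g ω 0 | (invSets d).comap g]

/-- The process `f` converges to the mean opinion given the invariant events. -/
structure ConvergesToMean (P : Measure Ω) (f : ℝ → Ω → Site d → ℝ) : Prop where
  /-- almost surely all opinions converge to the conditional mean -/
  almost_surely : ∀ᵐ ω ∂P, ∀ v : Site d,
    Tendsto (fun t : ℝ => f t ω v) atTop (𝓝 (invMean P (f 0) ω))
  /-- to the mean, if the profile is ergodic -/
  ergodic : ErgodicProfile P (f 0) → ∀ᵐ ω ∂P, ∀ v : Site d,
    Tendsto (fun t : ℝ => f t ω v) atTop (𝓝 (∫ ω', f 0 ω' 0 ∂P))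
  /-- the convergence holds in mean square -/
  mean_square : ∀ v : Site d,
    Tendsto (fun t : ℝ => eLpNorm (fun ω => f t ω v - invMean P (f 0) ω) 2 P) atTop (𝓝 0)
  /-- the maximal inequality -/
  maximal : ∀ v : Site d, ∀ lam : ℝ, 0 < lam →
    P {ω | ∃ t : ℝ, 0 ≤ t ∧ lam < |f t ω v|} ≤
      ENNReal.ofReal (144 * Real.exp (2 * d) * (∫ ω, f 0 ω 0 ^ 2 ∂P) / lam ^ 2)

/-- A bounded process is a process in the general sense. -/
theorem gen_of_bounded {P : Measure Ω} {F : Filtration ℝ mΩ} {N : Edge d → ℝ → Ω → ℕ}
    {f : ℝ → Ω → Site d → ℝ} (hf : EdgeAveraging P F N f) : GenEdgeAveraging P F N f := by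
  obtain ⟨M, hM⟩ := hf.bounded
  refine ⟨hf.adapted, hf.keep, hf.average, fun n => M + n, fun _ => f,
    tendsto_atTop_add_const_left _ _ tendsto_natCast_atTop_atTop, fun _ => hf, fun n => ?_, ?_⟩
  · filter_upwards [hM] with ω e v
    have h1 := e 0 v le_rfl
    have h2 : (0 : ℝ) ≤ n := Nat.cast_nonneg n
    exact (trunc_eq _ _ (by linarith)).symm
  · intro t v _ ε hε
    have : ∀ n : ℕ, P {ω | ε < |f t ω v - f t ω v|} = 0 := by
      intro n
      have e : {ω | ε < |f t ω v - f t ω v|} = (∅ : Set Ω) := by
        ext ω
        simp only [sub_self, abs_zero, Set.mem_ofPred_eq, Set.mem_empty_iff_false, iff_false, not_lt]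
        exact hε.le
      rw [e, measure_empty]
    simp only [sub_self] at this ⊢
    exact tendsto_const_nhds.congr (fun n => (this n).symm)

/-- **Edge averaging with a stationary profile.** Full answer to Question 1 in a stronger form.
For every `d ≥ 1`, let the stationary initial profile be bounded or, more generally, have a finite
second moment (in the second case the opinions at time `t` are the limits in probability of those of
the processes with truncated profiles). Then the opinions converge almost surely and in mean square,
at every vertex, to the conditional expectation of the initial opinion at the origin given the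
translation invariant events, hence to the mean opinion if the profile is ergodic, and the supremum
over all times of the opinion of a vertex satisfies a maximal inequality. -/
theorem result (d : ℕ) (hd : 1 ≤ d) (Ω : Type) (mΩ : MeasurableSpace Ω) (P : Measure Ω)
    [IsProbabilityMeasure P] (F : Filtration ℝ mΩ) (N : Edge d → ℝ → Ω → ℕ)
    (hN : PoissonClocks P F N) (f : ℝ → Ω → Site d → ℝ)
    (hf : EdgeAveraging P F N f ∨ (GenEdgeAveraging P F N f ∧ MemLp (fun ω => f 0 ω 0) 2 P))
    (hs : Stationary P (f 0)) : ConvergesToMean P f := by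
  have : NeZero d := ⟨by omega⟩
  obtain ⟨hf', h2⟩ : GenEdgeAveraging P F N f ∧ MemLp (fun ω => f 0 ω 0) 2 P := by
    rcases hf with hf | hf
    · refine ⟨gen_of_bounded hf, ?_⟩
      obtain ⟨M, hM⟩ := hf.bounded
      refine MemLp.of_bound ((hf.adapted 0 0 le_rfl).mono (F.le 0) le_rfl).aestronglyMeasurable M ?_
      filter_upwards [hM] with ω e
      rw [Real.norm_eq_abs]
      exact e 0 0 le_rfl
    · exact hf
  have h1 := gen_main hN hf' hs h2
  refine ⟨h1.1, fun herg => ?_, fun v => gen_L2 hN hf' hs h2 v, h1.2⟩
  have h3 := condExp_ergodic (gen_meas hf') (h2.integrable (by norm_num)) herg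
  filter_upwards [h1.1, h3] with ω e1 e2 v
  have e3 := e1 v
  rw [e2] at e3
  exact e3

end Pool.Agent.Results.MP_e8a7ad_pr.SquareIntegrable
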